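import Pool.Agent.Helper63.ST.Defs

/-!
MP_82cbb9_al, module ST-3a: a soluble linear group over an algebraically closed field has a
subgroup of bounded index with a common eigenvector (from ST-1 and ST-2b, here hypotheses).
-/

set_option autoImplicit false

namespace Pool.Agent.ST

open Module

/-- the statement of ST-1 -/
def WeightCase : Prop :=
  ∀ {k V G : Type} [Field k] [IsAlgClosed k] [AddCommGroup V] [Module k V]
    [FiniteDimensional k V] [Nontrivial V] [Group G] (ρ : G →* Module.End k V)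
    (A : Subgroup G) [A.Normal] (_ : ∀ a ∈ A, ∀ b ∈ A, Commute (ρ a) (ρ b))
    (_ : ∃ a ∈ A, ∀ c : k, ρ a ≠ c • 1),
    ∃ (W : Submodule k V) (H : Subgroup G), W ≠ ⊥ ∧ W ≠ ⊤ ∧ H.index ≠ 0 ∧
      H.index ≤ finrank k V ∧ ∀ h ∈ H, ∀ w ∈ W, ρ h w ∈ W

/-- the statement of ST-2b -/
def ScalarCase : Prop :=
  ∀ {k V G : Type} [Field k] [AddCommGroup V] [Module k V]
    [FiniteDimensional k V] [Nontrivial V] [Group G] [Group.IsSolvable G]
    (ρ : G →* Module.End k V)
    (_ : ∀ A : Subgroup G, A.Normal → (∀ a ∈ A, ∀ b ∈ A, Commute (ρ a) (ρ b)) →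
      ∀ a ∈ A, ∃ c : k, ρ a = c • 1),
    ∃ H : Subgroup G, H.index ≠ 0 ∧
      H.index ≤ (finrank k V ^ 2).factorial * (finrank k V ^ 2) ∧
      ∀ h ∈ H, ∃ c : k, ρ h = c • 1

/-- the index bound -/
def eigenBound : ℕ → ℕ
  | 0 => 1
  | n + 1 => eigenBound n *
      ((n + 1) + (((n + 1) ^ 2).factorial * (n + 1) ^ 2) + 1)

theorem eigenBound_pos (n : ℕ) : 0 < eigenBound n := by
  induction n with
  | zero => simp [eigenBound]
  | succ n ih => rw [eigenBound]; positivity

theorem eigenBound_mono : Monotone eigenBound := by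
  refine monotone_nat_of_le_succ fun n => ?_
  rw [eigenBound]
  exact Nat.le_mul_of_pos_right _ (by positivity)

theorem mul_eigenBound_le {m n : ℕ} (h : m < n) : n * eigenBound m ≤ eigenBound n := by
  obtain ⟨n, rfl⟩ : ∃ n', n = n' + 1 := ⟨n - 1, by omega⟩
  rw [eigenBound, mul_comm]
  exact Nat.mul_le_mul (eigenBound_mono (by omega)) (by omega)

theorem factorial_le_eigenBound {n : ℕ} (h : 0 < n) :
    (n ^ 2).factorial * (n ^ 2) ≤ eigenBound n := by
  obtain ⟨n, rfl⟩ : ∃ n', n = n' + 1 := ⟨n - 1, by omega⟩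
  rw [eigenBound]
  calc ((n + 1) ^ 2).factorial * (n + 1) ^ 2
      ≤ 1 * ((n + 1) + (((n + 1) ^ 2).factorial * (n + 1) ^ 2) + 1) := by omega
    _ ≤ eigenBound n * ((n + 1) + (((n + 1) ^ 2).factorial * (n + 1) ^ 2) + 1) :=
      Nat.mul_le_mul_right _ (eigenBound_pos n)

/-- the restriction of a representation to an invariant subspace -/
def restrictRep {k V G : Type} [Field k] [AddCommGroup V] [Module k V] [Group G]
    (ρ : G →* Module.End k V) (W : Submodule k V) (H : Subgroup G)
    (h : ∀ h ∈ H, ∀ w ∈ W, ρ h w ∈ W) : H →* Module.End k W where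
  toFun g := (ρ (g : G)).restrict (h g g.2)
  map_one' := by
    ext w
    simp [LinearMap.restrict_apply]
  map_mul' a b := by
    ext w
    simp [LinearMap.restrict_apply]

theorem malcev_eigen_of (h1 : WeightCase) (h2 : ScalarCase) (n : ℕ) :
    ∀ (k V G : Type) [Field k] [IsAlgClosed k]
    [AddCommGroup V] [Module k V] [FiniteDimensional k V] [Group G] [Group.IsSolvable G]
    (ρ : G →* Module.End k V), finrank k V = n → 0 < n →
    ∃ (H : Subgroup G) (v : V), H.index ≠ 0 ∧ H.index ≤ eigenBound n ∧ v ≠ 0 ∧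
      ∀ h ∈ H, ∃ c : k, ρ h v = c • v := by
  induction n using Nat.strong_induction_on with
  | _ n ih =>
    intro k V G _ _ _ _ _ _ _ ρ hn hpos
    have : Nontrivial V := Module.nontrivial_of_finrank_pos (R := k) (by omega)
    by_cases hs : ∀ A : Subgroup G, A.Normal → (∀ a ∈ A, ∀ b ∈ A, Commute (ρ a) (ρ b)) →
      ∀ a ∈ A, ∃ c : k, ρ a = c • 1
    · obtain ⟨H, hH0, hH1, hH⟩ := h2 ρ hs
      obtain ⟨v, hv⟩ := exists_ne (0 : V)
      refine ⟨H, v, hH0, ?_, hv, fun h hh => ?_⟩
      · rw [hn] at hH1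
        exact hH1.trans (factorial_le_eigenBound hpos)
      · obtain ⟨c, hc⟩ := hH h hh
        exact ⟨c, by rw [hc]; rfl⟩
    · push Not at hs
      obtain ⟨A, hA, hcomm, a, ha, hne⟩ := hs
      have := hA
      obtain ⟨W, H, hW0, hW1, hH0, hH1, hH⟩ := h1 ρ A hcomm ⟨a, ha, hne⟩
      have hlt : finrank k W < n := by
        rw [← hn]
        exact Submodule.finrank_lt hW1
      have hpos' : 0 < finrank k W := by
        rw [Nat.pos_iff_ne_zero]
        intro h0
        exact hW0 (Submodule.finrank_eq_zero.mp h0)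
      obtain ⟨H', w, h'0, h'1, hw, h'⟩ := ih (finrank k W) hlt k W H
        (restrictRep ρ W H hH) rfl hpos'
      have hidx : (H'.map H.subtype).index = H'.index * H.index := by
        rw [Subgroup.index_map_subtype]
      refine ⟨H'.map H.subtype, (w : V), ?_, ?_, ?_, ?_⟩
      · rw [hidx]
        exact mul_ne_zero h'0 hH0
      · rw [hidx]
        calc H'.index * H.index ≤ eigenBound (finrank k W) * n :=
              Nat.mul_le_mul h'1 (by rw [← hn]; exact hH1)
          _ = n * eigenBound (finrank k W) := mul_comm _ _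
          _ ≤ _ := mul_eigenBound_le hlt
      · simpa using hw
      · rintro _ ⟨g, hg, rfl⟩
        obtain ⟨c, hc⟩ := h' g hg
        refine ⟨c, ?_⟩
        have := congrArg (Subtype.val) hc
        simpa [restrictRep, LinearMap.restrict_apply] using this

end Pool.Agent.ST
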