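import Pool.Agent.Helper20.ST.MalcevEigen
import Pool.Agent.Helper34.ST.ST3b
import Pool.Agent.Helper68.ST.Weight
import Pool.Agent.Helper81.ST.ST2b

/-!
MP_82cbb9_al, ST-3a and ST-3b: Malcev's theorem with bounded index.
-/

set_option autoImplicit false

namespace Pool.Agent.ST

open Module

/-- ST-3a -/
theorem malcev_eigen : ∃ f : ℕ → ℕ, ∀ (n : ℕ) (k V G : Type) [Field k] [IsAlgClosed k]
    [AddCommGroup V] [Module k V] [FiniteDimensional k V] [Group G] [Group.IsSolvable G]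
    (ρ : G →* Module.End k V), finrank k V = n → 0 < n →
    ∃ (H : Subgroup G) (v : V), H.index ≠ 0 ∧ H.index ≤ f n ∧ v ≠ 0 ∧
      ∀ h ∈ H, ∃ c : k, ρ h v = c • v :=
  ⟨eigenBound, fun n => malcev_eigen_of
    (fun ρ A _ hA hs => weight_case ρ A hA hs) (fun ρ hs => scalar_case ρ hs) n⟩

/-- ST-3b -/
theorem exists_malcevBound : ∃ f : ℕ → ℕ, MalcevBound f :=
  exists_malcevBound_of malcev_eigen

end Pool.Agent.ST
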